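import Pool.Agent.H31.KR3

open Pool.Agent.H31.Snf

theorem Pool.Agent.Results.MP_02575e_gt.Main.result :
    ∃ (X : Type) (_ : TopologicalSpace X), T35Space X ∧ KR (FreeGroup X) (topF X) ∧
      ∃ H : Subgroup (FreeGroup X), @IsClosed _ (topF X) (H : Set (FreeGroup X)) ∧
        ¬KR H (TopologicalSpace.induced Subtype.val (topF X)) :=
  ⟨XX, inferInstance, inferInstance, krF, HH r1, HH_closed cont_r1, not_kr_H⟩
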